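import Mathlib
import Pool.Agent.Helper23.IM.Path
import Pool.Agent.Helper23.IM.Defs

/-!
# One-relator inverse monoids: basic facts, the action principle, generation of the units
-/

namespace IM

open FreeGroup

namespace HA

variable {A : Type*}

/-! ### Basic facts on classes -/

theorem FreeInverseMonoid.mk_append (u v : List (A × Bool)) :
    FreeInverseMonoid.mk (u ++ v) = FreeInverseMonoid.mk u * FreeInverseMonoid.mk v := rfl

theorem FreeInverseMonoid.mk_nil : FreeInverseMonoid.mk ([] : List (A × Bool)) = 1 := rfl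

theorem cls_append (w u v : List (A × Bool)) : cls w (u ++ v) = cls w u * cls w v := rfl

theorem cls_nil (w : List (A × Bool)) : cls w [] = 1 := rfl

theorem cls_cons (w : List (A × Bool)) (x : A × Bool) (u : List (A × Bool)) :
    cls w (x :: u) = cls w [x] * cls w u := by
  rw [← cls_append]; rfl

theorem FreeInverseMonoid.mk_surj (m : FreeInverseMonoid A) :
    ∃ u, FreeInverseMonoid.mk u = m := by
  obtain ⟨u, hu⟩ := Quotient.exists_rep m
  exact ⟨FreeMonoid.toList u, hu⟩

theorem cls_surj (w : List (A × Bool)) (m : OneRelInverseMonoid w) : ∃ u, cls w u = m := by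
  obtain ⟨n, hn⟩ := Quotient.exists_rep m
  obtain ⟨u, hu⟩ := FreeInverseMonoid.mk_surj n
  refine ⟨u, ?_⟩
  rw [← hn, ← hu]
  rfl

theorem cls_self (w : List (A × Bool)) : cls w w = 1 := by
  have h : conGen (fun x y : FreeInverseMonoid A => x = FreeInverseMonoid.mk w ∧ y = 1)
      (FreeInverseMonoid.mk w) 1 := ConGen.Rel.of _ _ ⟨rfl, rfl⟩
  exact (Con.eq _).2 h

theorem cls_idem (w u : List (A × Bool)) : cls w (u ++ FreeGroup.invRev u ++ u) = cls w u := by
  have h : conGen (VagnerRel A) (FreeMonoid.ofList (u ++ FreeGroup.invRev u ++ u))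
      (FreeMonoid.ofList u) := ConGen.Rel.of _ _ (VagnerRel.idem u)
  have h2 : FreeInverseMonoid.mk (u ++ FreeGroup.invRev u ++ u) = FreeInverseMonoid.mk u :=
    (Con.eq _).2 h
  rw [cls, cls, h2]

theorem cls_comm (w u v : List (A × Bool)) :
    cls w (u ++ FreeGroup.invRev u ++ (v ++ FreeGroup.invRev v)) =
      cls w (v ++ FreeGroup.invRev v ++ (u ++ FreeGroup.invRev u)) := by
  have h : conGen (VagnerRel A)
      (FreeMonoid.ofList (u ++ FreeGroup.invRev u ++ (v ++ FreeGroup.invRev v)))
      (FreeMonoid.ofList (v ++ FreeGroup.invRev v ++ (u ++ FreeGroup.invRev u))) :=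
    ConGen.Rel.of _ _ (VagnerRel.comm u v)
  have h2 : FreeInverseMonoid.mk (u ++ FreeGroup.invRev u ++ (v ++ FreeGroup.invRev v)) =
      FreeInverseMonoid.mk (v ++ FreeGroup.invRev v ++ (u ++ FreeGroup.invRev u)) :=
    (Con.eq _).2 h
  rw [cls, cls, h2]

theorem invRev_append' (u v : List (A × Bool)) :
    FreeGroup.invRev (u ++ v) = FreeGroup.invRev v ++ FreeGroup.invRev u := by
  simp [FreeGroup.invRev]

theorem invRev_singleton' (x : A × Bool) : FreeGroup.invRev [x] = [flip x] := by
  simp [FreeGroup.invRev, flip]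

/-- If the class of `u` is right invertible then the class of `invRev u` is a right inverse. -/
theorem cls_mul_inv_of_RU {w u : List (A × Bool)} (hu : u ∈ RU w) :
    cls w u * cls w (FreeGroup.invRev u) = 1 := by
  obtain ⟨m, hm⟩ := hu
  have h1 : cls w u * cls w (FreeGroup.invRev u) * cls w u = cls w u := cls_idem w u
  calc cls w u * cls w (FreeGroup.invRev u)
      = cls w u * cls w (FreeGroup.invRev u) * (cls w u * m) := by rw [hm, mul_one]
    _ = cls w u * cls w (FreeGroup.invRev u) * cls w u * m := by rw [mul_assoc _ (cls w u) m]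
    _ = 1 := by rw [h1, hm]

/-- A prefix of a word with right invertible class has right invertible class. -/
theorem RU_of_append {w u v : List (A × Bool)} (h : u ++ v ∈ RU w) : u ∈ RU w := by
  obtain ⟨m, hm⟩ := h
  exact ⟨cls w v * m, by rw [← mul_assoc, ← cls_append, hm]⟩

theorem RU_of_prefix {w u v : List (A × Bool)} (h : v ∈ RU w) (huv : u <+: v) : u ∈ RU w := by
  obtain ⟨t, rfl⟩ := huv
  exact RU_of_append h

theorem RU_nil (w : List (A × Bool)) : ([] : List (A × Bool)) ∈ RU w := ⟨1, by simp [cls_nil]⟩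

theorem RU_self (w : List (A × Bool)) : w ∈ RU w := ⟨1, by simp [cls_self]⟩

theorem RU_append {w u v : List (A × Bool)} (hu : u ∈ RU w) (hv : v ∈ RU w) : u ++ v ∈ RU w := by
  obtain ⟨m, hm⟩ := hu
  obtain ⟨n, hn⟩ := hv
  refine ⟨n * m, ?_⟩
  rw [cls_append, mul_assoc, ← mul_assoc (cls w v), hn, one_mul, hm]

theorem RU_congr {w u v : List (A × Bool)} (h : cls w u = cls w v) (hu : u ∈ RU w) : v ∈ RU w := by
  obtain ⟨m, hm⟩ := hu
  exact ⟨m, by rw [← h, hm]⟩

/-- If `p` and `p x` (with `x` a letter) have right invertible classes then `p x x⁻¹` and `p` have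
the same class. -/
theorem cls_cancel {w p : List (A × Bool)} {x : A × Bool} (hpx : p ++ [x] ∈ RU w) :
    cls w p * cls w [x] * cls w [flip x] = cls w p := by
  have h1 := cls_mul_inv_of_RU hpx
  rw [invRev_append', invRev_singleton', cls_append, cls_append] at h1
  -- h1 : [p][x] * ([flip x] [p⁻¹]) = 1
  have h2 : cls w p * cls w (FreeGroup.invRev p) * cls w p = cls w p := cls_idem w p
  have h3 := cls_comm w (FreeGroup.invRev p) [x]
  rw [FreeGroup.invRev_invRev, invRev_singleton'] at h3
  have h3' : cls w (FreeGroup.invRev p) * cls w p * (cls w [x] * cls w [flip x]) =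
      cls w [x] * cls w [flip x] * (cls w (FreeGroup.invRev p) * cls w p) := h3
  calc cls w p * cls w [x] * cls w [flip x]
      = cls w p * cls w (FreeGroup.invRev p) * cls w p * cls w [x] * cls w [flip x] := by rw [h2]
    _ = cls w p * (cls w (FreeGroup.invRev p) * cls w p * (cls w [x] * cls w [flip x])) := by
        simp only [mul_assoc]
    _ = (cls w p * cls w [x] * (cls w [flip x] * cls w (FreeGroup.invRev p))) * cls w p := by
        rw [h3']; simp only [mul_assoc]
    _ = cls w p := by rw [h1, one_mul]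

/-! ### The universal property -/

/-- A homomorphism from the free monoid on `A ∪ A⁻¹` satisfying Vagner's relations and killing `w`
factors through `Inv⟨A | w = 1⟩`. -/
theorem exists_lift {N : Type*} [Monoid N] (w : List (A × Bool))
    (f : FreeMonoid (A × Bool) →* N)
    (hidem : ∀ u, f (FreeMonoid.ofList (u ++ FreeGroup.invRev u ++ u)) = f (FreeMonoid.ofList u))
    (hcomm : ∀ u v, f (FreeMonoid.ofList (u ++ FreeGroup.invRev u ++ (v ++ FreeGroup.invRev v))) =
      f (FreeMonoid.ofList (v ++ FreeGroup.invRev v ++ (u ++ FreeGroup.invRev u))))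
    (hw : f (FreeMonoid.ofList w) = 1) :
    ∃ Φ : OneRelInverseMonoid w →* N, ∀ u, Φ (cls w u) = f (FreeMonoid.ofList u) := by
  have h1 : conGen (VagnerRel A) ≤ Con.ker f := by
    rw [Con.conGen_le]
    intro x y hxy
    rw [Con.ker_rel]
    cases hxy with
    | idem u => exact hidem u
    | comm u v => exact hcomm u v
  let g : FreeInverseMonoid A →* N := Con.lift (conGen (VagnerRel A)) f h1
  have hg : ∀ u, g (FreeInverseMonoid.mk u) = f (FreeMonoid.ofList u) := fun u => rfl
  have h2 : conGen (fun x y : FreeInverseMonoid A => x = FreeInverseMonoid.mk w ∧ y = 1) ≤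
      Con.ker g := by
    rw [Con.conGen_le]
    rintro x y ⟨rfl, rfl⟩
    rw [Con.ker_rel, hg, hw]
    exact (MonoidHom.map_one g).symm
  let Φ : OneRelInverseMonoid w →* N := Con.lift _ g h2
  exact ⟨Φ, fun u => rfl⟩

/-- The homomorphism from words to the free group. -/
def wordHom (A : Type*) : FreeMonoid (A × Bool) →* FreeGroup A where
  toFun u := FreeGroup.mk (FreeMonoid.toList u)
  map_one' := rfl
  map_mul' u v := by
    rw [FreeMonoid.toList_mul, FreeGroup.mul_mk]

theorem wordHom_ofList (u : List (A × Bool)) : wordHom A (FreeMonoid.ofList u) = FreeGroup.mk u :=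
  rfl

theorem exists_hom {A Q : Type*} [Group Q] (w : List (A × Bool)) (φ : FreeGroup A →* Q)
    (hφ : φ (FreeGroup.mk w) = 1) :
    ∃ Φ : OneRelInverseMonoid w →* Q, ∀ u, Φ (cls w u) = φ (FreeGroup.mk u) := by
  refine exists_lift w (φ.comp (wordHom A)) ?_ ?_ ?_
  · intro u
    simp only [MonoidHom.comp_apply, wordHom_ofList]
    rw [← FreeGroup.mul_mk, ← FreeGroup.mul_mk, ← FreeGroup.inv_mk, mul_inv_cancel, one_mul]
  · intro u v
    simp only [MonoidHom.comp_apply, wordHom_ofList]
    have h1 : ∀ z : List (A × Bool), (FreeGroup.mk (z ++ FreeGroup.invRev z) : FreeGroup A) = 1 := by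
      intro z
      rw [← FreeGroup.mul_mk, ← FreeGroup.inv_mk, mul_inv_cancel]
    rw [← FreeGroup.mul_mk (L₁ := u ++ FreeGroup.invRev u),
      ← FreeGroup.mul_mk (L₁ := v ++ FreeGroup.invRev v), h1, h1]
  · simp only [MonoidHom.comp_apply, wordHom_ofList]
    exact hφ

/-! ### The action principle -/

section action

variable {X : Type*} (ρ : A × Bool → X → X → Prop)

/-- The composite of the relations `ρ x` along a word. -/
def actRel : List (A × Bool) → X → X → Prop
  | [], a, b => a = b
  | x :: u, a, c => ∃ b, ρ x a b ∧ actRel u b c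

@[simp] theorem actRel_nil (a b : X) : actRel ρ [] a b ↔ a = b := Iff.rfl

theorem actRel_cons (x : A × Bool) (u : List (A × Bool)) (a c : X) :
    actRel ρ (x :: u) a c ↔ ∃ b, ρ x a b ∧ actRel ρ u b c := Iff.rfl

theorem actRel_append (u v : List (A × Bool)) (a c : X) :
    actRel ρ (u ++ v) a c ↔ ∃ b, actRel ρ u a b ∧ actRel ρ v b c := by
  induction u generalizing a with
  | nil => simp
  | cons x u ih =>
    simp only [List.cons_append, actRel_cons, ih]
    constructor
    · rintro ⟨b, hb, b', hb', hc⟩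
      exact ⟨b', ⟨b, hb, hb'⟩, hc⟩
    · rintro ⟨b', ⟨b, hb, hb'⟩, hc⟩
      exact ⟨b, hb, b', hb', hc⟩

theorem actRel_singleton (x : A × Bool) (a b : X) : actRel ρ [x] a b ↔ ρ x a b := by
  simp [actRel_cons]

variable {ρ}

/-- functionality -/
theorem actRel_fun (hfun : ∀ x a b b', ρ x a b → ρ x a b' → b = b') (u : List (A × Bool))
    {a b b' : X} (h : actRel ρ u a b) (h' : actRel ρ u a b') : b = b' := by
  induction u generalizing a with
  | nil => exact h.symm.trans h'
  | cons x u ih =>
    obtain ⟨c, hc, hb⟩ := h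
    obtain ⟨c', hc', hb'⟩ := h'
    obtain rfl := hfun x a c c' hc hc'
    exact ih hb hb'

theorem actRel_invRev (hsymm : ∀ x a b, ρ (flip x) a b ↔ ρ x b a) (u : List (A × Bool))
    (a b : X) : actRel ρ (FreeGroup.invRev u) a b ↔ actRel ρ u b a := by
  induction u generalizing b with
  | nil => simp [FreeGroup.invRev, eq_comm]
  | cons x u ih =>
    rw [invRev_cons', actRel_append]
    constructor
    · rintro ⟨c, hc, hb⟩
      rw [actRel_singleton, hsymm] at hb
      exact ⟨c, hb, (ih c).1 hc⟩
    · rintro ⟨c, hc, hb⟩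
      refine ⟨c, (ih c).2 hb, ?_⟩
      rw [actRel_singleton, hsymm]
      exact hc

theorem actRel_inj (hfun : ∀ x a b b', ρ x a b → ρ x a b' → b = b')
    (hsymm : ∀ x a b, ρ (flip x) a b ↔ ρ x b a) (u : List (A × Bool))
    {a a' b : X} (h : actRel ρ u a b) (h' : actRel ρ u a' b) : a = a' :=
  actRel_fun hfun (FreeGroup.invRev u) ((actRel_invRev hsymm u b a).2 h)
    ((actRel_invRev hsymm u b a').2 h')

theorem actRel_proj (hfun : ∀ x a b b', ρ x a b → ρ x a b' → b = b')
    (hsymm : ∀ x a b, ρ (flip x) a b ↔ ρ x b a) (u : List (A × Bool)) (a b : X) :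
    actRel ρ (u ++ FreeGroup.invRev u) a b ↔ a = b ∧ ∃ c, actRel ρ u a c := by
  rw [actRel_append]
  constructor
  · rintro ⟨c, hc, hb⟩
    rw [actRel_invRev hsymm] at hb
    exact ⟨actRel_inj hfun hsymm u hc hb, c, hc⟩
  · rintro ⟨rfl, c, hc⟩
    exact ⟨c, hc, (actRel_invRev hsymm u c a).2 hc⟩

/-- The preimage operator of a relation. -/
def preOp (R : X → X → Prop) : Function.End (Set X) := fun S => {a | ∃ b ∈ S, R a b}

variable (ρ)

/-- The homomorphism from words to the preimage operators. -/
def actEnd : FreeMonoid (A × Bool) →* Function.End (Set X) where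
  toFun u := preOp (actRel ρ (FreeMonoid.toList u))
  map_one' := by
    funext S
    ext a
    simp [preOp, Function.End.one_def, FreeMonoid.toList_one]
  map_mul' u v := by
    funext S
    ext a
    simp only [preOp, FreeMonoid.toList_mul, actRel_append, Function.End.mul_def,
      Function.comp_apply, Set.mem_ofPred_eq]
    constructor
    · rintro ⟨c, hc, b, hab, hbc⟩
      exact ⟨b, ⟨c, hc, hbc⟩, hab⟩
    · rintro ⟨b, ⟨c, hc, hbc⟩, hab⟩
      exact ⟨c, hc, b, hab, hbc⟩

theorem mem_actEnd (u : List (A × Bool)) (a b : X) :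
    a ∈ actEnd ρ (FreeMonoid.ofList u) {b} ↔ actRel ρ u a b := by
  change a ∈ preOp (actRel ρ u) {b} ↔ _
  simp [preOp]

theorem actEnd_congr {u v : List (A × Bool)} (h : ∀ a b, actRel ρ u a b ↔ actRel ρ v a b) :
    actEnd ρ (FreeMonoid.ofList u) = actEnd ρ (FreeMonoid.ofList v) := by
  funext S
  ext a
  change a ∈ preOp (actRel ρ u) S ↔ a ∈ preOp (actRel ρ v) S
  simp [preOp, h]

/-- **Action principle.** Let `ρ x` be partial injections of `X`, indexed by the letters, with
`ρ (x⁻¹)` the inverse of `ρ x`, such that `w` acts as the identity. Then words with the same class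
in `Inv⟨A | w = 1⟩` act in the same way. -/
theorem action_principle (hfun : ∀ x a b b', ρ x a b → ρ x a b' → b = b')
    (hsymm : ∀ x a b, ρ (flip x) a b ↔ ρ x b a) (w : List (A × Bool))
    (hw : ∀ a, actRel ρ w a a) {u v : List (A × Bool)} (huv : cls w u = cls w v) (a b : X) :
    actRel ρ u a b ↔ actRel ρ v a b := by
  obtain ⟨Φ, hΦ⟩ := exists_lift w (actEnd ρ) (by
    intro u
    apply actEnd_congr
    intro a b
    rw [actRel_append]
    constructor
    · rintro ⟨c, hc, hb⟩
      rw [actRel_proj hfun hsymm] at hc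
      rw [hc.1]; exact hb
    · intro h
      exact ⟨a, (actRel_proj hfun hsymm u a a).2 ⟨rfl, b, h⟩, h⟩) (by
    intro u v
    apply actEnd_congr
    intro a b
    rw [actRel_append, actRel_append]
    simp only [actRel_proj hfun hsymm]
    constructor
    · rintro ⟨c, ⟨rfl, h1⟩, rfl, h2⟩
      exact ⟨a, ⟨rfl, h2⟩, rfl, h1⟩
    · rintro ⟨c, ⟨rfl, h1⟩, rfl, h2⟩
      exact ⟨a, ⟨rfl, h2⟩, rfl, h1⟩) (by
    rw [← map_one (actEnd ρ), ← FreeMonoid.ofList_nil]
    apply actEnd_congr
    intro a b
    rw [actRel_nil]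
    constructor
    · intro h
      exact (actRel_fun hfun w h (hw a)).symm
    · rintro rfl
      exact hw a)
  rw [← mem_actEnd, ← mem_actEnd, ← hΦ, ← hΦ, huv]

end action

/-! ### The right units -/

/-- The submonoid generated by the classes of the prefixes of `w`. -/
def prefMon (w : List (A × Bool)) : Submonoid (OneRelInverseMonoid w) :=
  Submonoid.closure {m | ∃ p, p <+: w ∧ cls w p = m}

theorem cls_mem_prefMon_of_prefix {w p : List (A × Bool)} (h : p <+: w) : cls w p ∈ prefMon w :=
  Submonoid.subset_closure ⟨p, h, rfl⟩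

theorem prefMon_right_unit {w : List (A × Bool)} {m : OneRelInverseMonoid w}
    (hm : m ∈ prefMon w) : ∃ n, m * n = 1 := by
  induction hm using Submonoid.closure_induction with
  | mem x hx =>
    obtain ⟨p, hp, rfl⟩ := hx
    exact RU_of_prefix (RU_self w) hp
  | one => exact ⟨1, one_mul 1⟩
  | mul x y _ _ hx hy =>
    obtain ⟨n, hn⟩ := hx
    obtain ⟨k, hk⟩ := hy
    exact ⟨k * n, by rw [mul_assoc, ← mul_assoc y, hk, one_mul, hn]⟩

theorem prefMon_cancel {w : List (A × Bool)} {m : OneRelInverseMonoid w} {x : A × Bool}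
    (hm : m * cls w [x] ∈ prefMon w) : m * cls w [x] * cls w [flip x] = m := by
  obtain ⟨p, rfl⟩ := cls_surj w m
  refine cls_cancel ?_
  rw [← cls_append] at hm
  exact prefMon_right_unit hm

/-- The partial action on `prefMon w` by right multiplication. -/
def rhoR (w : List (A × Bool)) (x : A × Bool) (a b : prefMon w) : Prop :=
  (a : OneRelInverseMonoid w) * cls w [x] = b

theorem actRel_rhoR {w : List (A × Bool)} (u : List (A × Bool)) (a b : prefMon w)
    (h : actRel (rhoR w) u a b) : (a : OneRelInverseMonoid w) * cls w u = b := by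
  induction u generalizing a with
  | nil =>
    rw [actRel_nil] at h
    rw [cls_nil, mul_one, h]
  | cons x u ih =>
    obtain ⟨c, hc, hb⟩ := h
    rw [cls_cons, ← mul_assoc, show (a : OneRelInverseMonoid w) * cls w [x] = c from hc]
    exact ih c hb

theorem actRel_rhoR_of {w : List (A × Bool)} (u : List (A × Bool)) (a : prefMon w)
    (h : ∀ p, p <+: u → (a : OneRelInverseMonoid w) * cls w p ∈ prefMon w) :
    actRel (rhoR w) u a ⟨a * cls w u, h u (List.prefix_refl u)⟩ := by
  induction u generalizing a with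
  | nil =>
    rw [actRel_nil]
    apply Subtype.ext
    simp [cls_nil]
  | cons x u ih =>
    have h1 : (a : OneRelInverseMonoid w) * cls w [x] ∈ prefMon w :=
      h [x] (by simp)
    refine ⟨⟨_, h1⟩, rfl, ?_⟩
    have h2 := ih ⟨_, h1⟩ (by
      intro p hp
      have := h (x :: p) (by simpa using hp)
      rwa [cls_cons, ← mul_assoc] at this)
    convert h2 using 1
    apply Subtype.ext
    simp only
    rw [cls_cons, mul_assoc]

/-- Every right unit belongs to `prefMon w`. -/
theorem mem_prefMon_of_RU {w u : List (A × Bool)} (hu : u ∈ RU w) : cls w u ∈ prefMon w := by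
  have hfun : ∀ (x : A × Bool) (a b b' : prefMon w), rhoR w x a b → rhoR w x a b' → b = b' := by
    intro x a b b' h h'
    exact Subtype.ext (h.symm.trans h')
  have hsymm1 : ∀ (x : A × Bool) (a b : prefMon w), rhoR w x b a → rhoR w (flip x) a b := by
    intro x a b h
    have h1 : (b : OneRelInverseMonoid w) * cls w [x] = a := h
    change (a : OneRelInverseMonoid w) * cls w [flip x] = b
    rw [← h1]
    apply prefMon_cancel
    rw [h1]
    exact a.2
  have hsymm : ∀ (x : A × Bool) (a b : prefMon w), rhoR w (flip x) a b ↔ rhoR w x b a := by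
    intro x a b
    refine ⟨fun h => ?_, hsymm1 x a b⟩
    have := hsymm1 (flip x) b a h
    rwa [flip_flip] at this
  have hw : ∀ a : prefMon w, actRel (rhoR w) w a a := by
    intro a
    have h := actRel_rhoR_of w a (fun p hp =>
      (prefMon w).mul_mem a.2 (cls_mem_prefMon_of_prefix hp))
    convert h using 1
    apply Subtype.ext
    simp [cls_self]
  have h1 : cls w (u ++ FreeGroup.invRev u) = cls w [] := by
    rw [cls_append, cls_mul_inv_of_RU hu, cls_nil]
  have h2 := (action_principle (rhoR w) hfun hsymm w hw h1 1 1).2 rfl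
  rw [actRel_append] at h2
  obtain ⟨c, hc, -⟩ := h2
  have h3 := actRel_rhoR u 1 c hc
  have h4 : cls w u = c := by simpa using h3
  rw [h4]
  exact c.2

/-- The group of units is generated by the units which are classes of prefixes of `w`. -/
theorem units_closure {w : List (A × Bool)} :
    Subgroup.closure {x : (OneRelInverseMonoid w)ˣ |
      ∃ p, p <+: w ∧ cls w p = (x : OneRelInverseMonoid w)} = ⊤ := by
  rw [eq_top_iff]
  intro x _
  have key : ∀ m ∈ prefMon w, ∀ y : (OneRelInverseMonoid w)ˣ, (y : OneRelInverseMonoid w) = m →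
      y ∈ Subgroup.closure {x : (OneRelInverseMonoid w)ˣ |
        ∃ p, p <+: w ∧ cls w p = (x : OneRelInverseMonoid w)} := by
    intro m hm
    induction hm using Submonoid.closure_induction_right with
    | one =>
      intro y hy
      have : y = 1 := Units.ext hy
      rw [this]
      exact Subgroup.one_mem _
    | mul_right m hm q hq ih =>
      intro y hy
      obtain ⟨p, hp, rfl⟩ := hq
      obtain ⟨n, hn⟩ := RU_of_prefix (RU_self w) hp
      have hl : ((y⁻¹ : (OneRelInverseMonoid w)ˣ) : OneRelInverseMonoid w) * m * cls w p = 1 := by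
        rw [mul_assoc, ← hy, Units.inv_mul]
      have hr : cls w p * n = 1 := hn
      have hln : ((y⁻¹ : (OneRelInverseMonoid w)ˣ) : OneRelInverseMonoid w) * m = n :=
        left_inv_eq_right_inv hl hr
      let z : (OneRelInverseMonoid w)ˣ := ⟨cls w p, n, hr, by rw [← hln]; exact hl⟩
      have hz : (z : OneRelInverseMonoid w) = cls w p := rfl
      have h1 : y * z⁻¹ ∈ Subgroup.closure {x : (OneRelInverseMonoid w)ˣ |
          ∃ p, p <+: w ∧ cls w p = (x : OneRelInverseMonoid w)} := by
        apply ih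
        rw [Units.val_mul, hy, ← hz, mul_assoc, Units.mul_inv, mul_one]
      have h2 : z ∈ Subgroup.closure {x : (OneRelInverseMonoid w)ˣ |
          ∃ p, p <+: w ∧ cls w p = (x : OneRelInverseMonoid w)} :=
        Subgroup.subset_closure ⟨p, hp, rfl⟩
      have := Subgroup.mul_mem _ h1 h2
      rwa [inv_mul_cancel_right] at this
  obtain ⟨u, hu⟩ := cls_surj w (x : OneRelInverseMonoid w)
  refine key (cls w u) (mem_prefMon_of_RU
    ⟨((x⁻¹ : (OneRelInverseMonoid w)ˣ) : OneRelInverseMonoid w), ?_⟩) x hu.symm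
  rw [hu, Units.mul_inv]

theorem units_fg {A : Type*} (w : List (A × Bool)) : Group.FG (OneRelInverseMonoid w)ˣ := by
  rw [Group.fg_iff]
  refine ⟨_, units_closure, ?_⟩
  have hfin : {p : List (A × Bool) | p <+: w}.Finite := by
    refine Set.Finite.subset (List.finite_toSet w.inits) ?_
    intro p hp
    simpa using hp
  refine Set.Finite.subset ((hfin.image (cls w)).preimage
    (Set.injOn_of_injective (f := (Units.val : (OneRelInverseMonoid w)ˣ → OneRelInverseMonoid w))
      Units.val_injective)) ?_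
  rintro x ⟨p, hp, hx⟩
  exact ⟨p, hp, hx⟩

end HA

theorem exists_hom {A Q : Type*} [Group Q] (w : List (A × Bool)) (φ : FreeGroup A →* Q)
    (hφ : φ (FreeGroup.mk w) = 1) :
    ∃ Φ : OneRelInverseMonoid w →* Q, ∀ u, Φ (cls w u) = φ (FreeGroup.mk u) :=
  HA.exists_hom w φ hφ

theorem units_fg {A : Type*} (w : List (A × Bool)) : Group.FG (OneRelInverseMonoid w)ˣ :=
  HA.units_fg w

end IM
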